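import Mathlib

/-!
Fibres of finite sets over a quotient of a finite abelian group.
-/

set_option autoImplicit false

open Finset Classical

namespace Pool.Agent.H91.CG

section

variable {G : Type} [AddCommGroup G] [Fintype G] (L : AddSubgroup G)

/-- The part of `B` over the class `y`. -/
noncomputable def gfib (B : Finset G) (y : G ⧸ L) : Finset G :=
  B.filter (fun b => (QuotientAddGroup.mk b : G ⧸ L) = y)

/-- The classes over which `B` has at least `s` elements. -/
noncomputable def glev (B : Finset G) (s : ℕ) : Finset (G ⧸ L) :=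
  univ.filter (fun y => s ≤ (gfib L B y).card)

variable {L}

lemma mem_gfib {B : Finset G} {y : G ⧸ L} {b : G} :
    b ∈ gfib L B y ↔ b ∈ B ∧ (QuotientAddGroup.mk b : G ⧸ L) = y := by
  unfold gfib; rw [mem_filter]

lemma mem_glev {B : Finset G} {s : ℕ} {y : G ⧸ L} :
    y ∈ glev L B s ↔ s ≤ (gfib L B y).card := by
  unfold glev; rw [mem_filter]; exact ⟨fun h => h.2, fun h => ⟨mem_univ _, h⟩⟩

/-- A class has at most `Nat.card L` elements. -/
lemma gcard_class (y : G ⧸ L) (C : Finset G)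
    (hC : ∀ c ∈ C, (QuotientAddGroup.mk c : G ⧸ L) = y) : C.card ≤ Nat.card L := by
  rcases C.eq_empty_or_nonempty with h | ⟨c0, hc0⟩
  · rw [h, card_empty]; exact Nat.zero_le _
  · rw [Nat.card_eq_fintype_card, ← Finset.card_univ]
    have hmem : ∀ c ∈ C, c - c0 ∈ L := by
      intro c hc
      have h1 : (QuotientAddGroup.mk c : G ⧸ L) = QuotientAddGroup.mk c0 := by
        rw [hC c hc, hC c0 hc0]
      rw [QuotientAddGroup.eq] at h1
      have h2 := L.neg_mem h1
      rwa [neg_add, neg_neg, add_comm, ← sub_eq_neg_add, sub_eq_add_neg, add_comm,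
        ← sub_eq_neg_add] at h2
    refine card_le_card_of_injOn (fun c => if h : c ∈ C then ⟨c - c0, hmem c h⟩ else 0)
      (fun _ _ => mem_coe.mpr (mem_univ _)) ?_
    intro a ha b hb hab
    rw [mem_coe] at ha hb
    simp only [dif_pos ha, dif_pos hb] at hab
    have h1 := congrArg Subtype.val hab
    exact sub_left_injective h1

lemma card_gfib_le (B : Finset G) (y : G ⧸ L) : (gfib L B y).card ≤ Nat.card L :=
  gcard_class y _ fun c hc => (mem_gfib.mp hc).2

lemma gcard_eq_sum_fib (B : Finset G) : B.card = ∑ y : G ⧸ L, (gfib L B y).card := by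
  unfold gfib
  exact card_eq_sum_card_fiberwise fun b _ => mem_coe.mpr (mem_univ _)

lemma gcard_eq_sum_lev (B : Finset G) :
    B.card = ∑ s ∈ Icc 1 (Nat.card L), (glev L B s).card := by
  rw [gcard_eq_sum_fib (L := L) B]
  have h1 : ∀ s, (glev L B s).card = ∑ y : G ⧸ L, if s ≤ (gfib L B y).card then 1 else 0 := by
    intro s
    unfold glev
    rw [card_filter]
  simp_rw [h1]
  rw [sum_comm]
  refine sum_congr rfl fun y _ => ?_
  rw [← card_filter]
  have h2 : (Icc 1 (Nat.card L)).filter (fun s => s ≤ (gfib L B y).card) =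
      Icc 1 (gfib L B y).card := by
    ext s
    simp only [mem_filter, mem_Icc]
    have := card_gfib_le B y
    omega
  rw [h2, Nat.card_Icc]
  omega

/-- Two large parts of two classes give a full class. -/
lemma gpigeon {F F' : Finset G} {y y' : G ⧸ L}
    (hF : ∀ b ∈ F, (QuotientAddGroup.mk b : G ⧸ L) = y)
    (hF' : ∀ b ∈ F', (QuotientAddGroup.mk b : G ⧸ L) = y')
    (hc : Nat.card L < F.card + F'.card) (r : G) (hr : (QuotientAddGroup.mk r : G ⧸ L) = y + y') :
    ∃ b ∈ F, ∃ b' ∈ F', r = b + b' := by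
  have hinj : (F.image fun b => r - b).card = F.card :=
    card_image_of_injective _ sub_right_injective
  have hcls : ∀ c ∈ (F.image fun b => r - b) ∪ F', (QuotientAddGroup.mk c : G ⧸ L) = y' := by
    intro c hc'
    rw [mem_union, mem_image] at hc'
    rcases hc' with ⟨b, hb, rfl⟩ | hc'
    · rw [QuotientAddGroup.mk_sub, hr, hF b hb, add_sub_cancel_left]
    · exact hF' c hc'
  have hcard := gcard_class y' _ hcls
  have hmeet : ((F.image fun b => r - b) ∩ F').Nonempty := by
    rw [← card_pos]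
    have h1 := card_union_add_card_inter (F.image fun b => r - b) F'
    omega
  obtain ⟨c, hc1⟩ := hmeet
  rw [mem_inter, mem_image] at hc1
  obtain ⟨⟨b, hb, hbc⟩, hcF⟩ := hc1
  exact ⟨b, hb, c, hcF, by rw [← hbc]; abel⟩

lemma glev_mono {s s' : ℕ} {B : Finset G} (h : s ≤ s') : glev L B s' ⊆ glev L B s := by
  intro y hy
  rw [mem_glev] at hy ⊢
  exact h.trans hy

lemma glev_one_nonempty {B : Finset G} (h : B.Nonempty) : (glev L B 1).Nonempty := by
  obtain ⟨b, hb⟩ := h
  refine ⟨QuotientAddGroup.mk b, ?_⟩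
  rw [mem_glev]
  have : 0 < (gfib L B (QuotientAddGroup.mk b)).card := by
    rw [card_pos]
    exact ⟨b, mem_gfib.mpr ⟨hb, rfl⟩⟩
  omega

/-- Lifting of the elements of the transversals. -/
lemma exists_lift {T : ℕ → Set G} {T' : ℕ → Set (G ⧸ L)} {I : Finset ℕ}
    (hT : ∀ i ∈ I, ∀ t' ∈ T' i, ∃ t ∈ T i, (QuotientAddGroup.mk t : G ⧸ L) = t')
    {t' : ℕ → G ⧸ L} (ht' : ∀ i ∈ I, t' i ∈ T' i) :
    ∃ t : ℕ → G, (∀ i ∈ I, t i ∈ T i) ∧
      (QuotientAddGroup.mk (∑ i ∈ I, t i) : G ⧸ L) = ∑ i ∈ I, t' i := by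
  have h : ∀ i, ∃ t : G, i ∈ I → t ∈ T i ∧ (QuotientAddGroup.mk t : G ⧸ L) = t' i := by
    intro i
    by_cases hi : i ∈ I
    · obtain ⟨t, ht, h1⟩ := hT i hi (t' i) (ht' i hi)
      exact ⟨t, fun _ => ⟨ht, h1⟩⟩
    · exact ⟨0, fun h => absurd h hi⟩
  choose t ht using h
  refine ⟨t, fun i hi => (ht i hi).1, ?_⟩
  have h1 : (QuotientAddGroup.mk (∑ i ∈ I, t i) : G ⧸ L) =
      QuotientAddGroup.mk' L (∑ i ∈ I, t i) := rfl
  rw [h1, map_sum]
  exact sum_congr rfl fun i hi => (ht i hi).2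

/-- The inequality for one pair. -/
lemma gpair_ineq {B0 B1 : Finset G} (h0 : B0.Nonempty) (h1 : B1.Nonempty) {P : ℝ}
    (h : ∀ s ∈ Icc 1 (Nat.card L), ((glev L B0 s).card : ℝ) * (glev L B1 (Nat.card L + 1 - s)).card
      < P * ((glev L B0 1).card * (glev L B1 1).card)) :
    (B0.card : ℝ) / (Nat.card L * (glev L B0 1).card) +
      (B1.card : ℝ) / (Nat.card L * (glev L B1 1).card) < 1 + P := by
  set q := Nat.card L with hqd
  have hq : 0 < q := Nat.card_pos
  have hS0 : (0 : ℝ) < (glev L B0 1).card := by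
    exact_mod_cast card_pos.mpr (glev_one_nonempty h0)
  have hS1 : (0 : ℝ) < (glev L B1 1).card := by
    exact_mod_cast card_pos.mpr (glev_one_nonempty h1)
  have hq' : (0 : ℝ) < q := by exact_mod_cast hq
  have hc0 : (B0.card : ℝ) = ∑ s ∈ Icc 1 q, ((glev L B0 s).card : ℝ) := by
    exact_mod_cast gcard_eq_sum_lev B0
  have hc1 : (B1.card : ℝ) = ∑ s ∈ Icc 1 q, ((glev L B1 (q + 1 - s)).card : ℝ) := by
    have e1 : (B1.card : ℝ) = ∑ s ∈ Icc 1 q, ((glev L B1 s).card : ℝ) := by
      exact_mod_cast gcard_eq_sum_lev B1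
    rw [e1]
    refine sum_nbij' (fun s => q + 1 - s) (fun s => q + 1 - s) ?_ ?_ ?_ ?_ ?_
    · intro s hs; rw [mem_Icc] at hs ⊢; omega
    · intro s hs; rw [mem_Icc] at hs ⊢; omega
    · intro s hs; rw [mem_Icc] at hs; omega
    · intro s hs; rw [mem_Icc] at hs; omega
    · intro s hs
      rw [mem_Icc] at hs
      have : q + 1 - (q + 1 - s) = s := by omega
      rw [this]
  have hne : (Icc 1 q).Nonempty := ⟨1, by rw [mem_Icc]; omega⟩
  have hsum : ∑ s ∈ Icc 1 q, (((glev L B0 s).card : ℝ) / (glev L B0 1).card +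
      ((glev L B1 (q + 1 - s)).card : ℝ) / (glev L B1 1).card) < ∑ s ∈ Icc 1 q, (1 + P) := by
    refine sum_lt_sum_of_nonempty hne fun s hs => ?_
    have hs' := mem_Icc.mp hs
    set a : ℝ := ((glev L B0 s).card : ℝ) / (glev L B0 1).card with ha
    set b : ℝ := ((glev L B1 (q + 1 - s)).card : ℝ) / (glev L B1 1).card with hb
    have ha1 : a ≤ 1 := by
      rw [ha, div_le_one hS0]
      exact_mod_cast card_le_card (glev_mono hs'.1)
    have hb1 : b ≤ 1 := by
      rw [hb, div_le_one hS1]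
      exact_mod_cast card_le_card (glev_mono (by omega))
    have hab : a * b < P := by
      rw [ha, hb, div_mul_div_comm, div_lt_iff₀ (by positivity)]
      exact h s hs
    nlinarith
  rw [sum_add_distrib, ← sum_div, ← sum_div, ← hc0, ← hc1, sum_const, Nat.card_Icc,
    nsmul_eq_mul] at hsum
  have e2 : ((q + 1 - 1 : ℕ) : ℝ) = q := by
    norm_num
  rw [e2] at hsum
  have e3 : (B0.card : ℝ) / (q * (glev L B0 1).card) + (B1.card : ℝ) / (q * (glev L B1 1).card)
      = ((B0.card : ℝ) / (glev L B0 1).card + (B1.card : ℝ) / (glev L B1 1).card) / q := by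
    field_simp
  rw [e3, div_lt_iff₀ hq']
  linarith

lemma gle_one {B : Finset G} (hBn : B.Nonempty) :
    (B.card : ℝ) / (Nat.card L * (glev L B 1).card) ≤ 1 := by
  have hq : (0 : ℝ) < Nat.card L := by exact_mod_cast (Nat.card_pos : 0 < Nat.card L)
  have hpos : (0 : ℝ) < (glev L B 1).card := by
    exact_mod_cast card_pos.mpr (glev_one_nonempty hBn)
  rw [div_le_one (by positivity)]
  have e1 : (B.card : ℝ) = ∑ s ∈ Icc 1 (Nat.card L), ((glev L B s).card : ℝ) := by
    exact_mod_cast gcard_eq_sum_lev B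
  rw [e1]
  calc ∑ s ∈ Icc 1 (Nat.card L), ((glev L B s).card : ℝ)
      ≤ ∑ s ∈ Icc 1 (Nat.card L), ((glev L B 1).card : ℝ) := by
        refine sum_le_sum fun s hs => ?_
        exact_mod_cast card_le_card (glev_mono (mem_Icc.mp hs).1)
    _ = Nat.card L * (glev L B 1).card := by
        rw [sum_const, Nat.card_Icc, nsmul_eq_mul]
        norm_num

end

end Pool.Agent.H91.CG
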