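import Pool.Agent.H91.CG.Multi

/-!
Logarithmic form, mixed radix digits in `ZMod N`, and two summands do not suffice.
-/

set_option autoImplicit false

open Finset Classical

namespace Pool.Agent.H91.CG

/-- From the product inequality to the logarithmic bound. -/
lemma log_form {k m : ℕ} {κ D : ℝ} (h0 : 0 < κ) (hD : 0 < D) (c : Fin k → ℝ) (hc : ∀ j, 0 < c j)
    (h : ∏ j, c j ≤ κ ^ m * D ^ k) :
    (m : ℝ) * Real.log (1 / κ) ≤ ∑ j, Real.log (D / c j) := by
  have hP : 0 < ∏ j, c j := prod_pos fun j _ => hc j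
  have e0 : (1 / κ) ^ m ≤ ∏ j, (D / c j) := by
    rw [prod_div_distrib, prod_const, card_univ, Fintype.card_fin, le_div_iff₀ hP]
    calc (1 / κ) ^ m * ∏ j, c j ≤ (1 / κ) ^ m * (κ ^ m * D ^ k) := by gcongr
      _ = D ^ k := by
        rw [← mul_assoc, ← mul_pow, one_div, inv_mul_cancel₀ h0.ne', one_pow, one_mul]
  have e1 := Real.log_le_log (by positivity) e0
  rwa [Real.log_pow, Real.log_prod (fun j _ => (div_pos hD (hc j)).ne')] at e1

/-- The weights of a mixed radix system. -/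
def wt (q : ℕ → ℕ) (i : ℕ) : ℕ := ∏ j ∈ range i, q j

lemma wt_succ (q : ℕ → ℕ) (i : ℕ) : wt q (i + 1) = wt q i * q i := prod_range_succ _ _

lemma wt_pos {q : ℕ → ℕ} (hq : ∀ i, 1 ≤ q i) (i : ℕ) : 0 < wt q i :=
  prod_pos fun j _ => hq j

lemma digits_lt {q : ℕ → ℕ} (hq : ∀ i, 1 ≤ q i) {n : ℕ} {I : Finset ℕ} (hI : I ⊆ range n)
    {c : ℕ → ℕ} (hc : ∀ i ∈ I, c i < q i) : ∑ i ∈ I, c i * wt q i < wt q n := by
  have h1 : ∀ n : ℕ, ∑ i ∈ range n, (q i - 1) * wt q i + 1 = wt q n := by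
    intro n
    induction n with
    | zero => simp [wt]
    | succ n ih =>
      rw [sum_range_succ, wt_succ, ← ih]
      obtain ⟨p, hp⟩ : ∃ p, q n = p + 1 := ⟨q n - 1, by have := hq n; omega⟩
      rw [hp, Nat.add_sub_cancel]
      rw [← ih] at *
      ring
  have h2 : ∑ i ∈ I, c i * wt q i ≤ ∑ i ∈ range n, (q i - 1) * wt q i := by
    refine (sum_le_sum fun i hi => ?_).trans (sum_le_sum_of_subset hI)
    have := hc i hi
    exact Nat.mul_le_mul_right _ (by omega)
  have h3 := h1 n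
  omega

/-- Covering statement for all finite abelian groups, all chains of subgroups with sets of
representatives and all `k` nonempty sets. -/
def GroupCover (k : ℕ) (κ : ℝ) : Prop :=
  ∀ (G : Type) [AddCommGroup G] [Finite G] (n : ℕ) (K : ℕ → AddSubgroup G) (T : ℕ → Set G),
    K 0 = ⊤ → K n = ⊥ → (∀ i < n, ∀ g ∈ K i, ∃ t ∈ T i, g - t ∈ K (i + 1)) →
    ∀ A : Fin k → Finset G, (∀ j, (A j).Nonempty) → ∃ I ⊆ range n,
      (I.card : ℝ) * Real.log (1 / κ) ≤ ∑ j, Real.log ((Nat.card G : ℝ) / ((A j).card : ℝ)) ∧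
      ∀ x : G, ∃ a : Fin k → G, (∀ j, a j ∈ A j) ∧ ∃ t : ℕ → G, (∀ i ∈ I, t i ∈ T i) ∧
        x = ∑ j, a j + ∑ i ∈ I, t i

/-- Covering statement for all cyclic groups and all mixed radix systems. -/
def CyclicCover (k : ℕ) (κ : ℝ) : Prop :=
  ∀ N : ℕ, 0 < N → ∀ (u : (ZMod N)ˣ) (n : ℕ) (q : ℕ → ℕ), (∀ i, 1 ≤ q i) →
    (k + 1) * N ≤ ∏ i ∈ range n, q i →
    ∀ A : Fin k → Finset (ZMod N), (∀ j, (A j).Nonempty) → ∃ I ⊆ range n,
      (I.card : ℝ) * Real.log (1 / κ) ≤
        ∑ j, Real.log ((∏ i ∈ range n, q i : ℕ) / ((A j).card : ℝ)) ∧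
      ∀ x : ZMod N, ∃ a : Fin k → ZMod N, (∀ j, a j ∈ A j) ∧ ∃ c : ℕ → ℕ,
        (∀ i ∈ I, c i < q i) ∧
        x = ∑ j, a j + (u : ZMod N) * ((∑ i ∈ I, c i * ∏ l ∈ range i, q l : ℕ) : ZMod N)

/-- Covering statement for one set in the cyclic groups of order `2 ^ n`, by powers of two, with
an additive constant. -/
def BinaryCover (k : ℕ) (κ : ℝ) : Prop :=
  ∃ C : ℝ, ∀ (n : ℕ) (A : Finset (ZMod (2 ^ n))), A.Nonempty → ∃ I : Finset ℕ,
    (I.card : ℝ) * Real.log (1 / κ) ≤ k * Real.log (2 ^ n / (A.card : ℝ)) + C ∧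
    ∀ x : ZMod (2 ^ n), ∃ a : Fin k → ZMod (2 ^ n), (∀ j, a j ∈ A) ∧ ∃ J ⊆ I,
      x = ∑ j, a j + ∑ i ∈ J, (2 : ZMod (2 ^ n)) ^ i

/-- Covering of `ZMod D` by `k` sets and few digits. -/
theorem cyc_full {k : ℕ} {κ : ℝ} (hG : GroupCover k κ)
    (n : ℕ) (q : ℕ → ℕ) (hq : ∀ i, 1 ≤ q i) (B : Fin k → Finset (ZMod (wt q n)))
    (hB : ∀ j, (B j).Nonempty) :
    ∃ I ⊆ range n, (I.card : ℝ) * Real.log (1 / κ) ≤
        ∑ j, Real.log ((wt q n : ℝ) / ((B j).card : ℝ)) ∧
      ∀ x : ZMod (wt q n), ∃ b : Fin k → ZMod (wt q n), (∀ j, b j ∈ B j) ∧ ∃ c : ℕ → ℕ,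
        (∀ i ∈ I, c i < q i) ∧ x = ∑ j, b j + ((∑ i ∈ I, c i * wt q i : ℕ) : ZMod (wt q n)) := by
  have hw := wt_pos hq n
  have : NeZero (wt q n) := ⟨hw.ne'⟩
  obtain ⟨I, hI, hcard, hcov⟩ := hG (ZMod (wt q n)) n
    (fun i => AddSubgroup.zmultiples ((wt q i : ℕ) : ZMod (wt q n)))
    (fun i => {t | ∃ c : ℕ, c < q i ∧ t = ((c * wt q i : ℕ) : ZMod (wt q n))}) (by
      have e : wt q 0 = 1 := by simp [wt]
      rw [e, eq_top_iff]
      intro x _
      rw [AddSubgroup.mem_zmultiples_iff]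
      refine ⟨x.val, ?_⟩
      rw [Nat.cast_one, zsmul_one, Int.cast_natCast, ZMod.natCast_zmod_val]) (by
      rw [ZMod.natCast_self, AddSubgroup.zmultiples_zero_eq_bot]) (by
      intro i _ g hg
      rw [AddSubgroup.mem_zmultiples_iff] at hg
      obtain ⟨m, rfl⟩ := hg
      have hqi : (0 : ℤ) < q i := by exact_mod_cast hq i
      have hm0 := Int.emod_nonneg m hqi.ne'
      have hm1 := Int.emod_lt_of_pos m hqi
      have hmv : (((m % (q i : ℤ)).toNat : ℕ) : ℤ) = m % (q i : ℤ) := Int.toNat_of_nonneg hm0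
      refine ⟨_, ⟨(m % (q i : ℤ)).toNat, by omega, rfl⟩, ?_⟩
      rw [AddSubgroup.mem_zmultiples_iff]
      refine ⟨m / (q i : ℤ), ?_⟩
      have e1 : (((m % (q i : ℤ)).toNat : ℕ) : ZMod (wt q n)) = ((m % (q i : ℤ) : ℤ) :
          ZMod (wt q n)) := by
        conv_rhs => rw [← hmv]
        rw [Int.cast_natCast]
      have e2 : m = m % (q i : ℤ) + (q i : ℤ) * (m / (q i : ℤ)) :=
        (Int.emod_add_mul_ediv m (q i : ℤ)).symm
      rw [wt_succ, zsmul_eq_mul, zsmul_eq_mul]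
      push_cast
      rw [e1]
      have e3 : (m : ZMod (wt q n)) = ((m % (q i : ℤ) : ℤ) : ZMod (wt q n)) +
          (q i : ZMod (wt q n)) * ((m / (q i : ℤ) : ℤ) : ZMod (wt q n)) := by
        conv_lhs => rw [e2]
        push_cast
        ring
      rw [e3]
      ring) B hB
  refine ⟨I, hI, ?_, ?_⟩
  · rwa [Nat.card_zmod] at hcard
  · intro x
    obtain ⟨b, hb, t, ht, hx⟩ := hcov x
    have h : ∀ i, ∃ c : ℕ, i ∈ I → c < q i ∧ t i = ((c * wt q i : ℕ) : ZMod (wt q n)) := by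
      intro i
      by_cases hi : i ∈ I
      · obtain ⟨c, hc, e⟩ := ht i hi
        exact ⟨c, fun _ => ⟨hc, e⟩⟩
      · exact ⟨0, fun h => absurd h hi⟩
    choose c hc using h
    refine ⟨b, hb, c, fun i hi => (hc i hi).1, ?_⟩
    rw [hx, Nat.cast_sum]
    congr 1
    exact sum_congr rfl fun i hi => (hc i hi).2

/-- Covering of `ZMod N` by `k` sets and few digits. -/
theorem cyc_cover {k : ℕ} {κ : ℝ} (hG : GroupCover k κ)
    (N : ℕ) (hN : 0 < N) (n : ℕ) (q : ℕ → ℕ) (hq : ∀ i, 1 ≤ q i) (hn : (k + 1) * N ≤ wt q n)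
    (A : Fin k → Finset (ZMod N)) (hA : ∀ j, (A j).Nonempty) :
    ∃ I ⊆ range n, (I.card : ℝ) * Real.log (1 / κ) ≤
        ∑ j, Real.log ((wt q n : ℝ) / ((A j).card : ℝ)) ∧
      ∀ x : ZMod N, ∃ a : Fin k → ZMod N, (∀ j, a j ∈ A j) ∧ ∃ c : ℕ → ℕ,
        (∀ i ∈ I, c i < q i) ∧ x = ∑ j, a j + ((∑ i ∈ I, c i * wt q i : ℕ) : ZMod N) := by
  have hNz : NeZero N := ⟨hN.ne'⟩
  have hle : N ≤ wt q n := le_trans (Nat.le_mul_of_pos_left N (by omega)) hn
  have hw := wt_pos hq n
  have : NeZero (wt q n) := ⟨hw.ne'⟩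
  have hinj : Function.Injective (fun a : ZMod N => ((a.val : ℕ) : ZMod (wt q n))) := by
    intro a b hab
    have h2 := congrArg ZMod.val hab
    simp only [] at h2
    rw [ZMod.val_natCast, ZMod.val_natCast, Nat.mod_eq_of_lt (lt_of_lt_of_le (ZMod.val_lt a) hle),
      Nat.mod_eq_of_lt (lt_of_lt_of_le (ZMod.val_lt b) hle)] at h2
    exact ZMod.val_injective N h2
  obtain ⟨I, hI, hcard, hcov⟩ := cyc_full hG n q hq
    (fun j => (A j).image (fun a => ((a.val : ℕ) : ZMod (wt q n)))) (fun j => (hA j).image _)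
  refine ⟨I, hI, ?_, ?_⟩
  · refine le_trans hcard (le_of_eq (sum_congr rfl fun j _ => ?_))
    rw [card_image_of_injective _ hinj]
  intro x
  set M : ℕ := k * (N - 1) with hM
  set X : ℕ := M + (x - (M : ℕ)).val with hX
  have hxX : ((X : ℕ) : ZMod N) = x := by
    rw [hX, Nat.cast_add, ZMod.natCast_zmod_val]
    ring
  have hXlt : X < wt q n := by
    have h2 := ZMod.val_lt (x - ((M : ℕ) : ZMod N))
    have h3 : M + N ≤ (k + 1) * N := by
      rw [hM, Nat.add_mul, one_mul]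
      exact Nat.add_le_add_right (Nat.mul_le_mul_left k (Nat.sub_le N 1)) N
    omega
  obtain ⟨b, hb, c, hc, hx⟩ := hcov ((X : ℕ) : ZMod (wt q n))
  have hb' : ∀ j, ∃ a ∈ A j, ((a.val : ℕ) : ZMod (wt q n)) = b j := fun j => by
    have := hb j
    rwa [mem_image] at this
  choose a ha hab using hb'
  refine ⟨a, ha, c, hc, ?_⟩
  set S : ℕ := ∑ j, (a j).val with hS
  set Y : ℕ := ∑ i ∈ I, c i * wt q i with hY
  have hSle : S ≤ M := by
    rw [hS, hM]
    calc ∑ j, (a j).val ≤ ∑ _j : Fin k, (N - 1) := sum_le_sum fun j _ => by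
          have := ZMod.val_lt (a j)
          omega
      _ = k * (N - 1) := by rw [sum_const, card_univ, Fintype.card_fin, smul_eq_mul]
  have hYlt : Y < wt q n := digits_lt hq hI hc
  have hcast : ((X : ℕ) : ZMod (wt q n)) = ((S + Y : ℕ) : ZMod (wt q n)) := by
    have e1 : ∑ j, b j = ((S : ℕ) : ZMod (wt q n)) := by
      rw [hS, Nat.cast_sum]
      exact sum_congr rfl fun j _ => (hab j).symm
    rw [hx, Nat.cast_add, e1]
  have heq : X = S + Y := by
    have h2 := (ZMod.natCast_eq_natCast_iff _ _ _).mp hcast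
    rcases le_total X (S + Y) with h3 | h3
    · have h4 := (Nat.modEq_iff_dvd' h3).mp h2
      have h5 : S + Y - X < wt q n := by omega
      have h6 := Nat.eq_zero_of_dvd_of_lt h4 h5
      omega
    · have h4 := (Nat.modEq_iff_dvd' h3).mp h2.symm
      have h5 : X - (S + Y) < wt q n := by omega
      have h6 := Nat.eq_zero_of_dvd_of_lt h4 h5
      omega
  rw [← hxX, heq, Nat.cast_add, hS, Nat.cast_sum]
  congr 1
  exact sum_congr rfl fun j _ => ZMod.natCast_zmod_val _

/-- The central binomial coefficient. -/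
lemma central_sq (r : ℕ) : r.centralBinom ^ 2 * (3 * r + 1) ≤ 16 ^ r := by
  induction r with
  | zero => simp
  | succ r ih =>
    have h := Nat.succ_mul_centralBinom_succ r
    have h1 : ((r + 1) * (r + 1).centralBinom) ^ 2 = (2 * (2 * r + 1) * r.centralBinom) ^ 2 := by
      rw [h]
    have h2 : (r + 1) ^ 2 * ((r + 1).centralBinom ^ 2 * (3 * (r + 1) + 1)) ≤
        (r + 1) ^ 2 * 16 ^ (r + 1) := by
      calc (r + 1) ^ 2 * ((r + 1).centralBinom ^ 2 * (3 * (r + 1) + 1))
          = ((r + 1) * (r + 1).centralBinom) ^ 2 * (3 * r + 4) := by ring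
        _ = r.centralBinom ^ 2 * (4 * (2 * r + 1) ^ 2 * (3 * r + 4)) := by rw [h1]; ring
        _ ≤ r.centralBinom ^ 2 * (16 * (r + 1) ^ 2 * (3 * r + 1)) := by
            refine Nat.mul_le_mul_left _ ?_
            nlinarith
        _ = 16 * (r + 1) ^ 2 * (r.centralBinom ^ 2 * (3 * r + 1)) := by ring
        _ ≤ 16 * (r + 1) ^ 2 * 16 ^ r := Nat.mul_le_mul_left _ ih
        _ = (r + 1) ^ 2 * 16 ^ (r + 1) := by ring
    exact Nat.le_of_mul_le_mul_left h2 (by positivity)

lemma central_small (m : ℕ) : 4 * m * (6 * m ^ 2).centralBinom ≤ 4 ^ (6 * m ^ 2) := by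
  have h := central_sq (6 * m ^ 2)
  have h1 : (4 * m * (6 * m ^ 2).centralBinom) ^ 2 ≤ (4 ^ (6 * m ^ 2)) ^ 2 := by
    calc (4 * m * (6 * m ^ 2).centralBinom) ^ 2
        = (6 * m ^ 2).centralBinom ^ 2 * (16 * m ^ 2) := by ring
      _ ≤ (6 * m ^ 2).centralBinom ^ 2 * (3 * (6 * m ^ 2) + 1) := by
          refine Nat.mul_le_mul_left _ ?_
          nlinarith [sq_nonneg m]
      _ ≤ 16 ^ (6 * m ^ 2) := h
      _ = (4 ^ (6 * m ^ 2)) ^ 2 := by
          have e : (16 : ℕ) = 4 ^ 2 := by norm_num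
          rw [e, ← pow_mul, ← pow_mul, mul_comm (6 * m ^ 2) 2]
  exact (Nat.pow_le_pow_iff_left (by norm_num)).mp h1

/-- The small subsets of `range (2 * r + 1)`. -/
lemma small_sets (r m : ℕ) (hm : m ≤ r) :
    4 ^ r ≤ ((range (2 * r + 1)).powerset.filter (fun S => S.card ≤ r - m)).card +
      2 * m * r.centralBinom := by
  have h1 : ∀ s : ℕ, ((range (2 * r + 1)).powerset.filter
      (fun S => S.card ≤ s)).card = ∑ i ∈ range (s + 1), (2 * r + 1).choose i := by
    intro s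
    rw [card_eq_sum_card_fiberwise (f := Finset.card) (t := range (s + 1))]
    · refine sum_congr rfl fun i hi => ?_
      rw [mem_range] at hi
      rw [filter_filter]
      have e : (range (2 * r + 1)).powerset.filter
          (fun S => S.card ≤ s ∧ S.card = i) = powersetCard i (range (2 * r + 1)) := by
        ext S
        rw [mem_filter, mem_powersetCard, mem_powerset]
        constructor
        · rintro ⟨h, _, h'⟩
          exact ⟨h, h'⟩
        · rintro ⟨h, h'⟩
          exact ⟨h, by omega, h'⟩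
      rw [e, card_powersetCard, card_range]
    · intro S hS
      rw [mem_coe, mem_filter] at hS
      rw [mem_coe, mem_range]
      omega
  rw [h1]
  have h2 := Nat.sum_range_choose_halfway r
  have h3 : ∑ i ∈ range (r + 1), (2 * r + 1).choose i = ∑ i ∈ range (r - m + 1),
      (2 * r + 1).choose i + ∑ i ∈ Ico (r - m + 1) (r + 1), (2 * r + 1).choose i := by
    rw [sum_range_add_sum_Ico _ (by omega)]
  have h4 : ∑ i ∈ Ico (r - m + 1) (r + 1), (2 * r + 1).choose i ≤ 2 * m * r.centralBinom := by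
    calc ∑ i ∈ Ico (r - m + 1) (r + 1), (2 * r + 1).choose i
        ≤ ∑ _i ∈ Ico (r - m + 1) (r + 1), 2 * r.centralBinom := by
          refine sum_le_sum fun i hi => ?_
          rw [mem_Ico] at hi
          obtain ⟨i', rfl⟩ : ∃ i', i = i' + 1 := ⟨i - 1, by omega⟩
          rw [Nat.choose_succ_succ']
          have h5 := Nat.choose_le_centralBinom i' r
          have h6 := Nat.choose_le_centralBinom (i' + 1) r
          omega
      _ = 2 * m * r.centralBinom := by
          rw [sum_const, Nat.card_Ico, smul_eq_mul]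
          have : r + 1 - (r - m + 1) = m := by omega
          rw [this]
          ring
  omega

/-- A sum of less than `n` powers of two is not `-1` modulo `2 ^ n`. -/
lemma pow_sum (n : ℕ) : ∀ s : Multiset ℕ, 2 ^ n ∣ (s.map (fun e => 2 ^ e)).sum + 1 →
    n ≤ s.card := by
  induction n with
  | zero => intro s _; exact Nat.zero_le _
  | succ n ih =>
    intro s hs
    set z := s.filter (fun e => e = 0) with hz
    set p := s.filter (fun e => ¬ e = 0) with hp
    have hzp : z + p = s := Multiset.filter_add_not _ _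
    have hz1 : (z.map (fun e => 2 ^ e)).sum = z.card := by
      have h1 : z.map (fun e => 2 ^ e) = Multiset.replicate z.card 1 := by
        rw [Multiset.eq_replicate]
        refine ⟨Multiset.card_map _ _, ?_⟩
        intro b hb
        rw [Multiset.mem_map] at hb
        obtain ⟨e, he, rfl⟩ := hb
        rw [hz, Multiset.mem_filter] at he
        rw [he.2, pow_zero]
      rw [h1, Multiset.sum_replicate, smul_eq_mul, mul_one]
    have hp1 : (p.map (fun e => 2 ^ e)).sum = 2 * ((p.map (fun e => e - 1)).map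
        (fun e => 2 ^ e)).sum := by
      rw [Multiset.map_map, ← Multiset.sum_map_mul_left]
      congr 1
      refine Multiset.map_congr rfl fun e he => ?_
      rw [hp, Multiset.mem_filter] at he
      rw [Function.comp_apply, ← pow_succ']
      congr 1
      have := he.2
      omega
    have hsum : (s.map (fun e => 2 ^ e)).sum = z.card + 2 * ((p.map (fun e => e - 1)).map
        (fun e => 2 ^ e)).sum := by
      rw [← hzp, Multiset.map_add, Multiset.sum_add, hz1, hp1]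
    have hc : s.card = z.card + p.card := by rw [← hzp, Multiset.card_add]
    rw [hsum] at hs
    set Q := ((p.map (fun e => e - 1)).map (fun e => 2 ^ e)).sum with hQ
    have hodd : ∃ u, z.card = 2 * u + 1 := by
      have h1 : 2 ∣ z.card + 2 * Q + 1 := Dvd.dvd.trans ⟨2 ^ n, pow_succ' 2 n⟩ hs
      exact ⟨(z.card - 1) / 2, by omega⟩
    obtain ⟨u, hu⟩ := hodd
    have h2 : 2 ^ n ∣ ((Multiset.replicate u 0 + p.map (fun e => e - 1)).map
        (fun e => 2 ^ e)).sum + 1 := by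
      rw [Multiset.map_add, Multiset.sum_add, ← hQ, Multiset.map_replicate,
        Multiset.sum_replicate, pow_zero, smul_eq_mul, mul_one]
      have h3 : z.card + 2 * Q + 1 = 2 * (u + Q + 1) := by omega
      rw [h3, pow_succ'] at hs
      exact Nat.dvd_of_mul_dvd_mul_left (by norm_num) hs
    have h4 := ih _ h2
    rw [Multiset.card_add, Multiset.card_replicate, Multiset.card_map] at h4
    omega

lemma multi_sum {k : ℕ} (S : Fin k → Finset ℕ) (t : Finset (Fin k)) :
    ∃ s : Multiset ℕ, s.card = ∑ j ∈ t, (S j).card ∧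
      (s.map (fun e => 2 ^ e)).sum = ∑ j ∈ t, ∑ i ∈ S j, 2 ^ i := by
  induction t using Finset.induction_on with
  | empty => exact ⟨0, by simp, by simp⟩
  | insert j t hj ih =>
    obtain ⟨s, h1, h2⟩ := ih
    refine ⟨(S j).val + s, ?_, ?_⟩
    · rw [sum_insert hj, Multiset.card_add, h1]
      rfl
    · rw [sum_insert hj, Multiset.map_add, Multiset.sum_add, h2]
      rfl

/-- Sets of numbers with few binary digits need many more digits. -/
lemma need {k n m : ℕ} (A : Finset (ZMod (2 ^ n)))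
    (hA : ∀ a ∈ A, ∃ S : Finset ℕ, S.card ≤ m ∧ a = ((∑ i ∈ S, 2 ^ i : ℕ) : ZMod (2 ^ n)))
    (I : Finset ℕ) (a : Fin k → ZMod (2 ^ n)) (ha : ∀ j, a j ∈ A) (c : ℕ → ℕ)
    (hc : ∀ i ∈ I, c i < 2)
    (h : (-1 : ZMod (2 ^ n)) = ∑ j, a j + ((∑ i ∈ I, c i * 2 ^ i : ℕ) : ZMod (2 ^ n))) :
    n ≤ k * m + I.card := by
  choose S hS using fun j => hA (a j) (ha j)
  obtain ⟨s, h1, h2⟩ := multi_sum S univ
  have h3 : ∑ i ∈ I, c i * 2 ^ i = ((I.filter (fun i => c i = 1)).val.map
      (fun e => 2 ^ e)).sum := by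
    have e1 : ((I.filter (fun i => c i = 1)).val.map (fun e => 2 ^ e)).sum =
        ∑ i ∈ I.filter (fun i => c i = 1), 2 ^ i := rfl
    rw [e1, sum_filter]
    refine sum_congr rfl fun i hi => ?_
    have h5 := hc i hi
    split_ifs with h6
    · rw [h6, one_mul]
    · have : c i = 0 := by omega
      rw [this, zero_mul]
  have h4 : 2 ^ n ∣ ((s + (I.filter (fun i => c i = 1)).val).map (fun e => 2 ^ e)).sum + 1 := by
    rw [← CharP.cast_eq_zero_iff (ZMod (2 ^ n)) (2 ^ n), Multiset.map_add, Multiset.sum_add, h2,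
      ← h3, Nat.cast_add, Nat.cast_one, Nat.cast_add, Nat.cast_sum]
    have e2 : ∑ j, (((∑ i ∈ S j, 2 ^ i : ℕ)) : ZMod (2 ^ n)) = ∑ j, a j :=
      sum_congr rfl fun j _ => (hS j).2.symm
    rw [e2, ← h]
    ring
  have h5 := pow_sum n _ h4
  have h6 : s.card ≤ k * m := by
    rw [h1]
    calc ∑ j, (S j).card ≤ ∑ _j : Fin k, m := sum_le_sum fun j _ => (hS j).1
      _ = k * m := by rw [sum_const, card_univ, Fintype.card_fin, smul_eq_mul]
  have h7 : Multiset.card (I.filter (fun i => c i = 1)).val ≤ I.card := card_filter_le _ _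
  rw [Multiset.card_add] at h5
  omega

lemma enc_inj (n : ℕ) {S S' : Finset ℕ} (hS : S ⊆ range n) (hS' : S' ⊆ range n)
    (h : ((∑ i ∈ S, 2 ^ i : ℕ) : ZMod (2 ^ n)) = ((∑ i ∈ S', 2 ^ i : ℕ) : ZMod (2 ^ n))) :
    S = S' := by
  have h1 : ∑ i ∈ S, 2 ^ i < 2 ^ n := Nat.geomSum_lt le_rfl fun i hi => mem_range.mp (hS hi)
  have h2 : ∑ i ∈ S', 2 ^ i < 2 ^ n := Nat.geomSum_lt le_rfl fun i hi => mem_range.mp (hS' hi)
  have h3 := (ZMod.natCast_eq_natCast_iff _ _ _).mp h
  have h4 := Nat.ModEq.eq_of_lt_of_lt h3 h1 h2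
  exact Finset.geomSum_injective le_rfl h4

/-- Two summands do not suffice. -/
theorem two_fail (m : ℕ) : ∃ (n : ℕ) (A : Finset (ZMod (2 ^ n))), 2 ^ n ≤ 4 * A.card ∧
    ∀ I : Finset ℕ, (∀ x : ZMod (2 ^ n), ∃ a ∈ A, ∃ b ∈ A, ∃ c : ℕ → ℕ, (∀ i ∈ I, c i < 2) ∧
      x = a + b + ((∑ i ∈ I, c i * 2 ^ i : ℕ) : ZMod (2 ^ n))) → m ≤ I.card := by
  set r := 6 * m ^ 2 with hr
  have hmr : m ≤ r := by
    rw [hr]
    nlinarith
  set F := (range (2 * r + 1)).powerset.filter (fun S => S.card ≤ r - m) with hF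
  refine ⟨2 * r + 1, F.image (fun S => ((∑ i ∈ S, 2 ^ i : ℕ) : ZMod (2 ^ (2 * r + 1)))), ?_, ?_⟩
  · rw [card_image_of_injOn]
    · have h1 := small_sets r m hmr
      have h2 := central_small m
      rw [← hr] at h2
      have h3 : 2 ^ (2 * r + 1) = 2 * 4 ^ r := by
        rw [pow_succ, pow_mul]
        norm_num
        ring
      rw [← hF] at h1
      have h4 : 4 * (2 * m * r.centralBinom) ≤ 2 * 4 ^ r := by
        calc 4 * (2 * m * r.centralBinom) = 2 * (4 * m * r.centralBinom) := by ring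
          _ ≤ 2 * 4 ^ r := Nat.mul_le_mul_left _ h2
      omega
    · intro S hS S' hS' h
      rw [mem_coe, hF, mem_filter, mem_powerset] at hS hS'
      exact enc_inj _ hS.1 hS'.1 h
  · intro I hI
    obtain ⟨a, ha, b, hb, c, hc, h⟩ := hI (-1)
    have h1 := need (k := 2) (n := 2 * r + 1) (m := r - m) (F.image (fun S => ((∑ i ∈ S, 2 ^ i : ℕ)
      : ZMod (2 ^ (2 * r + 1))))) (by
        intro a ha
        rw [mem_image] at ha
        obtain ⟨S, hS, rfl⟩ := ha
        rw [hF, mem_filter] at hS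
        exact ⟨S, hS.2, rfl⟩) I ![a, b] (by
        intro j
        fin_cases j
        · exact ha
        · exact hb) c hc (by
        rw [Fin.sum_univ_two]
        exact h)
    omega

/-- The constant cannot be improved. -/
theorem sharp {k : ℕ} {κ : ℝ} (h0 : 0 < κ) (h1 : κ < 1) (hκ : κ < ((1 + κ) / 2) ^ k) (C : ℝ) :
    ∃ (n : ℕ) (A : Finset (ZMod (2 ^ n))), A.Nonempty ∧
    ∀ I : Finset ℕ, (∀ x : ZMod (2 ^ n), ∃ a : Fin k → ZMod (2 ^ n), (∀ j, a j ∈ A) ∧
      ∃ c : ℕ → ℕ, (∀ i ∈ I, c i < 2) ∧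
      x = ∑ j, a j + ((∑ i ∈ I, c i * 2 ^ i : ℕ) : ZMod (2 ^ n))) →
      (k : ℝ) * Real.log (2 ^ n / A.card) + C < I.card * Real.log (1 / κ) := by
  set R : ℝ := ((1 + κ) / 2) ^ k / κ with hR
  have hR1 : 1 < R := by rw [hR, one_lt_div h0]; exact hκ
  have hR0 : 0 < R := by linarith
  -- choice of `n`
  obtain ⟨n, hn⟩ : ∃ n : ℕ, ((n : ℝ) + 1) ^ k * Real.exp C < R ^ n := by
    have h2 := tendsto_pow_const_div_const_pow_of_one_lt k hR1
    have h3 := (h2.eventually (gt_mem_nhds (show (0 : ℝ) < Real.exp (-C) / R by positivity))).and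
      (Filter.eventually_ge_atTop 1)
    obtain ⟨m, hm, hm1⟩ := h3.exists
    refine ⟨m - 1, ?_⟩
    have e : (((m - 1 : ℕ) : ℝ) + 1) = m := by
      rw [Nat.cast_sub hm1]
      push_cast
      ring
    rw [e]
    rw [div_lt_iff₀ (by positivity)] at hm
    have e2 : Real.exp (-C) / R * R ^ m = Real.exp (-C) * R ^ (m - 1) := by
      obtain ⟨m', rfl⟩ : ∃ m', m = m' + 1 := ⟨m - 1, by omega⟩
      rw [pow_succ, Nat.add_sub_cancel]
      field_simp
    rw [e2] at hm
    calc (m : ℝ) ^ k * Real.exp C < Real.exp (-C) * R ^ (m - 1) * Real.exp C := by gcongr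
      _ = R ^ (m - 1) * (Real.exp (-C) * Real.exp C) := by ring
      _ = R ^ (m - 1) := by rw [← Real.exp_add, neg_add_cancel, Real.exp_zero, mul_one]
  -- choice of `j`
  obtain ⟨j, hj, hj1⟩ : ∃ j ∈ range (n + 1), (1 + κ) ^ n / (n + 1) ≤ κ ^ j * n.choose j := by
    refine exists_le_of_sum_le ⟨0, by rw [mem_range]; omega⟩ ?_
    rw [sum_const, card_range, nsmul_eq_mul]
    have e : ∑ j ∈ range (n + 1), κ ^ j * (n.choose j : ℝ) = (1 + κ) ^ n := by
      rw [add_comm 1 κ, add_pow]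
      refine sum_congr rfl fun j _ => ?_
      rw [one_pow, mul_one]
    rw [e]
    push_cast
    have : (0 : ℝ) < (n : ℝ) + 1 := by positivity
    rw [mul_div_cancel₀ _ this.ne']
  set F := powersetCard j (range n) with hF
  have hinj : Set.InjOn (fun S : Finset ℕ => ((∑ i ∈ S, 2 ^ i : ℕ) : ZMod (2 ^ n)))
      (F : Set (Finset ℕ)) := by
    intro S hS S' hS' h
    rw [mem_coe, hF, mem_powersetCard] at hS hS'
    exact enc_inj _ hS.1 hS'.1 h
  have hcard : (F.image (fun S => ((∑ i ∈ S, 2 ^ i : ℕ) : ZMod (2 ^ n)))).card = n.choose j := by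
    rw [card_image_of_injOn hinj, hF, card_powersetCard, card_range]
  have hch : (0 : ℝ) < n.choose j := by
    have := Nat.choose_pos (show j ≤ n by rw [mem_range] at hj; omega)
    exact_mod_cast this
  refine ⟨n, F.image (fun S => ((∑ i ∈ S, 2 ^ i : ℕ) : ZMod (2 ^ n))), ?_, ?_⟩
  · rw [← card_pos, hcard]
    exact_mod_cast hch
  intro I hI
  obtain ⟨a, ha, c, hc, h⟩ := hI (-1)
  have hneed := need (k := k) (n := n) (m := j) _ (by
        intro a ha
        rw [mem_image] at ha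
        obtain ⟨S, hS, rfl⟩ := ha
        rw [hF, mem_powersetCard] at hS
        exact ⟨S, hS.2.le, rfl⟩) I a ha c hc h
  rw [hcard]
  have hn1 : (0 : ℝ) < (n : ℝ) + 1 := by positivity
  have hκ2 : 0 < (1 + κ) / 2 := by linarith
  have l1 : (k : ℝ) * Real.log (n + 1) + C < n * (k * Real.log ((1 + κ) / 2) - Real.log κ) := by
    have h3 := Real.log_lt_log (by positivity) hn
    rw [Real.log_mul (by positivity) (by positivity), Real.log_exp, Real.log_pow, Real.log_pow, hR,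
      Real.log_div (by positivity) h0.ne', Real.log_pow] at h3
    exact h3
  have l2 : n * Real.log (1 + κ) - Real.log (n + 1) ≤ j * Real.log κ + Real.log (n.choose j) := by
    have h3 := Real.log_le_log (by positivity) hj1
    rw [Real.log_div (by positivity) hn1.ne', Real.log_pow, Real.log_mul (by positivity) hch.ne',
      Real.log_pow] at h3
    exact h3
  have l3 : Real.log ((1 + κ) / 2) = Real.log (1 + κ) - Real.log 2 :=
    Real.log_div (by linarith) (by norm_num)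
  have l4 : Real.log (2 ^ n / n.choose j) = n * Real.log 2 - Real.log (n.choose j) := by
    rw [Real.log_div (by positivity) hch.ne', Real.log_pow]
  have l5 : Real.log (1 / κ) = - Real.log κ := by rw [one_div, Real.log_inv]
  have l6 : Real.log κ < 0 := Real.log_neg h0 h1
  have hneed' : (n : ℝ) ≤ k * j + I.card := by exact_mod_cast hneed
  rw [l4, l5]
  have hk0 : (0 : ℝ) ≤ k := Nat.cast_nonneg k
  have l7 : (k : ℝ) * (n * Real.log (1 + κ) - Real.log (n + 1)) ≤
      k * (j * Real.log κ + Real.log (n.choose j)) := mul_le_mul_of_nonneg_left l2 hk0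
  rw [l3] at l1
  have l8 : (n : ℝ) * (-Real.log κ) ≤ (k * j + I.card) * (-Real.log κ) :=
    mul_le_mul_of_nonneg_right hneed' (by linarith)
  nlinarith

end Pool.Agent.H91.CG
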