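import Pool.Agent.H91.CG.Base

/-!
Covering of a finite abelian group by the sum of `k` sets and a few transversals of a chain of
subgroups.
-/

set_option autoImplicit false

open Finset Classical

namespace Pool.Agent.H91.CG

/-- The sum of the sets `B j` plus the sets `T i`, `i` in `I`, is everything. -/
def MCov {G : Type} [AddCommGroup G] {k : ℕ} (T : ℕ → Set G) (B : Fin k → Finset G)
    (I : Finset ℕ) : Prop :=
  ∀ x : G, ∃ b : Fin k → G, (∀ j, b j ∈ B j) ∧ ∃ t : ℕ → G, (∀ i ∈ I, t i ∈ T i) ∧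
    x = ∑ j, b j + ∑ i ∈ I, t i

/-- The levels: `s` and `q + 1 - s` at the two places, one elsewhere. -/
def lvl {k : ℕ} (q : ℕ) (j0 j1 : Fin k) (s : ℕ) (j : Fin k) : ℕ :=
  if j = j0 then s else if j = j1 then q + 1 - s else 1

lemma sum_upd {G : Type} [AddCommGroup G] {k : ℕ} (b : Fin k → G) (j0 : Fin k) (c : G) :
    ∑ j, Function.update b j0 c j = ∑ j, b j - b j0 + c := by
  have h : ∑ j, Function.update b j0 c j - ∑ j, b j = c - b j0 := by
    rw [← sum_sub_distrib, sum_eq_single j0]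
    · rw [Function.update_self]
    · intro j _ hj
      rw [Function.update_of_ne hj, sub_self]
    · intro h
      exact absurd (mem_univ _) h
  rw [sub_eq_iff_eq_add] at h
  rw [h]
  abel

section

variable {G : Type} [AddCommGroup G] [Fintype G] {L : AddSubgroup G} {k : ℕ}

lemma mk_sum (b : Fin k → G) (y : Fin k → G ⧸ L)
    (h : ∀ j, (QuotientAddGroup.mk (b j) : G ⧸ L) = y j) :
    (QuotientAddGroup.mk (∑ j, b j) : G ⧸ L) = ∑ j, y j := by
  have h1 : (QuotientAddGroup.mk (∑ j, b j) : G ⧸ L) =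
      QuotientAddGroup.mk' L (∑ j, b j) := rfl
  rw [h1, map_sum]
  exact sum_congr rfl fun j _ => h j

/-- The last step is not used. -/
lemma moptA {T : ℕ → Set G} {T' : ℕ → Set (G ⧸ L)} {B : Fin k → Finset G} {I : Finset ℕ}
    {j0 j1 : Fin k} (hj : j0 ≠ j1) {s : ℕ} (hs : s ∈ Icc 1 (Nat.card L))
    (hT : ∀ i ∈ I, ∀ t' ∈ T' i, ∃ t ∈ T i, (QuotientAddGroup.mk t : G ⧸ L) = t')
    (h : MCov T' (fun j => glev L (B j) (lvl (Nat.card L) j0 j1 s j)) I) :
    MCov T B I := by
  intro x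
  obtain ⟨y, hy, t', ht', hx⟩ := h (QuotientAddGroup.mk x)
  have hy' : ∀ j, lvl (Nat.card L) j0 j1 s j ≤ (gfib L (B j) (y j)).card := fun j =>
    mem_glev.mp (hy j)
  rw [mem_Icc] at hs
  have hl : ∀ j, 1 ≤ lvl (Nat.card L) j0 j1 s j := by
    intro j
    unfold lvl
    split_ifs <;> omega
  have hne : ∀ j, ∃ b, b ∈ gfib L (B j) (y j) := by
    intro j
    have h1 : (gfib L (B j) (y j)).Nonempty := by
      rw [← card_pos]
      have h2 := hl j
      have h3 := hy' j
      omega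
    exact h1
  choose b hb using hne
  obtain ⟨t, ht, hts⟩ := exists_lift hT ht'
  have h0 := hy' j0
  have h1 := hy' j1
  unfold lvl at h0 h1
  rw [if_pos rfl] at h0
  rw [if_neg hj.symm, if_pos rfl] at h1
  have hbs := mk_sum (L := L) b y (fun j => (mem_gfib.mp (hb j)).2)
  obtain ⟨c0, hc0, c1, hc1, hr⟩ := gpigeon (F := gfib L (B j0) (y j0))
    (F' := gfib L (B j1) (y j1)) (y := y j0)
    (y' := y j1) (fun b hb => (mem_gfib.mp hb).2) (fun b hb => (mem_gfib.mp hb).2) (by omega)
    (x - (∑ j, b j - b j0 - b j1) - ∑ i ∈ I, t i) (by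
      rw [QuotientAddGroup.mk_sub, QuotientAddGroup.mk_sub, QuotientAddGroup.mk_sub,
        QuotientAddGroup.mk_sub, hts, hbs, (mem_gfib.mp (hb j0)).2, (mem_gfib.mp (hb j1)).2, hx]
      abel)
  refine ⟨Function.update (Function.update b j0 c0) j1 c1, ?_, t, ht, ?_⟩
  · intro j
    by_cases e1 : j = j1
    · subst e1
      rw [Function.update_self]
      exact (mem_gfib.mp hc1).1
    · rw [Function.update_of_ne e1]
      by_cases e0 : j = j0
      · subst e0
        rw [Function.update_self]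
        exact (mem_gfib.mp hc0).1
      · rw [Function.update_of_ne e0]
        exact (mem_gfib.mp (hb j)).1
  · rw [sum_upd, sum_upd, Function.update_of_ne hj.symm]
    have e2 : x = (x - (∑ j, b j - b j0 - b j1) - ∑ i ∈ I, t i)
      + (∑ j, b j - b j0 - b j1) + ∑ i ∈ I, t i := by abel
    rw [e2, hr]
    abel

/-- The last step is used. -/
lemma moptB {n : ℕ} {T : ℕ → Set G} {T' : ℕ → Set (G ⧸ L)} {B : Fin k → Finset G}
    {I : Finset ℕ} (hI : I ⊆ range n) (hL : ∀ g ∈ L, g ∈ T n)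
    (hT : ∀ i ∈ I, ∀ t' ∈ T' i, ∃ t ∈ T i, (QuotientAddGroup.mk t : G ⧸ L) = t')
    (h : MCov T' (fun j => glev L (B j) 1) I) :
    MCov T B (insert n I) := by
  intro x
  have hnI : n ∉ I := fun h' => by
    have := mem_range.mp (hI h')
    omega
  obtain ⟨y, hy, t', ht', hx⟩ := h (QuotientAddGroup.mk x)
  have hne : ∀ j, ∃ b, b ∈ gfib L (B j) (y j) := by
    intro j
    have h1 : (gfib L (B j) (y j)).Nonempty := by
      rw [← card_pos]
      have h3 := mem_glev.mp (hy j)
      omega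
    exact h1
  choose b hb using hne
  obtain ⟨t, ht, hts⟩ := exists_lift hT ht'
  have hbs := mk_sum (L := L) b y (fun j => (mem_gfib.mp (hb j)).2)
  set l : G := x - ∑ j, b j - ∑ i ∈ I, t i with hl
  have hlL : l ∈ L := by
    rw [← QuotientAddGroup.eq_zero_iff, hl, QuotientAddGroup.mk_sub, QuotientAddGroup.mk_sub,
      hbs, hts, hx]
    abel
  refine ⟨b, fun j => (mem_gfib.mp (hb j)).1, Function.update t n l, ?_, ?_⟩
  · intro i hi
    rw [mem_insert] at hi
    rcases hi with rfl | hi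
    · rw [Function.update_self]
      exact hL _ hlL
    · rw [Function.update_of_ne (show i ≠ n from fun h' => hnI (h' ▸ hi))]
      exact ht i hi
  · rw [sum_insert hnI, Function.update_self]
    have e1 : ∑ i ∈ I, Function.update t n l i = ∑ i ∈ I, t i := by
      refine sum_congr rfl fun i hi => ?_
      rw [Function.update_of_ne (show i ≠ n from fun h' => hnI (h' ▸ hi))]
    rw [e1, hl]
    abel

end

/-- The numerical inequality. -/
lemma kappa_bound {k : ℕ} {κ P : ℝ} (h0 : 0 < κ) (h1 : κ < 1) (hκ : ((1 + κ) / 2) ^ k ≤ κ)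
    (hP1 : P ≤ 1) (h : P < ((1 + P) / 2) ^ k) : P ≤ κ := by
  by_contra hcon
  push Not at hcon
  rcases hP1.eq_or_lt with hP | hP
  · rw [hP] at h
    norm_num at h
  · have hd : 0 < 1 - κ := by linarith
    have ha : 0 ≤ (1 - P) / (1 - κ) := div_nonneg (by linarith) hd.le
    have hb : 0 ≤ (P - κ) / (1 - κ) := div_nonneg (by linarith) hd.le
    have hab : (1 - P) / (1 - κ) + (P - κ) / (1 - κ) = 1 := by
      rw [← add_div, div_eq_one_iff_eq hd.ne']
      ring
    have hc := (convexOn_pow (𝕜 := ℝ) k).2 (x := (1 + κ) / 2) (y := 1)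
      (by rw [Set.mem_Ici]; linarith) (by rw [Set.mem_Ici]; norm_num) ha hb hab
    simp only [smul_eq_mul, one_pow, mul_one] at hc
    have e1 : (1 - P) / (1 - κ) * ((1 + κ) / 2) + (P - κ) / (1 - κ) = (1 + P) / 2 := by
      field_simp
      ring
    rw [e1] at hc
    have e2 : (1 - P) / (1 - κ) * ((1 + κ) / 2) ^ k ≤ (1 - P) / (1 - κ) * κ :=
      mul_le_mul_of_nonneg_left hκ ha
    have e3 : (1 - P) / (1 - κ) * κ + (P - κ) / (1 - κ) = P := by
      field_simp
      ring
    linarith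

lemma two_le_k {k : ℕ} {κ : ℝ} (h0 : 0 < κ) (h1 : κ < 1) (hκ : ((1 + κ) / 2) ^ k ≤ κ) :
    2 ≤ k := by
  by_contra hcon
  have : k = 0 ∨ k = 1 := by omega
  rcases this with rfl | rfl
  · rw [pow_zero] at hκ
    linarith
  · rw [pow_one] at hκ
    linarith

lemma prod_two {k : ℕ} {j0 j1 : Fin k} (hj : j0 ≠ j1) (f : Fin k → ℝ) :
    ∏ j, f j = f j0 * f j1 * ∏ j ∈ (univ.erase j0).erase j1, f j := by
  have h1 := mul_prod_erase (univ.erase j0) f (a := j1) (mem_erase.mpr ⟨hj.symm, mem_univ _⟩)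
  have h0 := mul_prod_erase univ f (a := j0) (mem_univ _)
  rw [← h0, ← h1]
  ring

lemma cyc {k : ℕ} (hk : 2 ≤ k) (r : Fin k → ℝ) (hr : ∀ j, 0 < r j)
    (h : ∀ j0 j1 : Fin k, j0 ≠ j1 → r j0 + r j1 < 1 + ∏ j, r j) :
    ∏ j, r j < ((1 + ∏ j, r j) / 2) ^ k := by
  obtain ⟨m, rfl⟩ : ∃ m, k = m + 2 := ⟨k - 2, by omega⟩
  have hP : 0 < ∏ j, r j := prod_pos fun j _ => hr j
  generalize hPd : ∏ j, r j = P at *
  have hne : ∀ j : Fin (m + 2), j ≠ j + 1 := by
    intro j hj
    have h5 : (1 : Fin (m + 2)) = 0 := by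
      have := hj
      rwa [left_eq_add] at this
    exact absurd h5 (by simp)
  have e1 : ∏ j, r (j + 1) = P := by
    rw [← hPd]
    exact Fintype.prod_equiv (Equiv.addRight (1 : Fin (m + 2))) _ _ (fun j => rfl)
  have e2 : P ^ 2 = ∏ j, (r j * r (j + 1)) := by
    rw [prod_mul_distrib, e1, hPd, sq]
  have e3 : (((1 + P) / 2) ^ (m + 2)) ^ 2 = ∏ _j : Fin (m + 2), ((1 + P) / 2) ^ 2 := by
    rw [prod_const, card_univ, Fintype.card_fin, ← pow_mul, ← pow_mul, mul_comm]
  have hsq : P ^ 2 < (((1 + P) / 2) ^ (m + 2)) ^ 2 := by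
    rw [e2, e3]
    refine prod_lt_prod_of_nonempty (fun j _ => mul_pos (hr j) (hr _)) ?_ ⟨0, mem_univ _⟩
    intro j _
    have h5 := h j (j + 1) (hne j)
    have h6 : r j * r (j + 1) ≤ ((r j + r (j + 1)) / 2) ^ 2 := by
      nlinarith [sq_nonneg (r j - r (j + 1))]
    refine lt_of_le_of_lt h6 ?_
    have h7 := hr j
    have h8 := hr (j + 1)
    exact pow_lt_pow_left₀ (by linarith) (by linarith) (by norm_num)
  exact lt_of_pow_lt_pow_left₀ 2 (pow_pos (by linarith) _).le hsq

theorem mcore {k : ℕ} {κ : ℝ} (h0 : 0 < κ) (h1 : κ < 1) (hκ : ((1 + κ) / 2) ^ k ≤ κ) (n : ℕ) :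
    ∀ (G : Type) [AddCommGroup G] [Finite G] (K : ℕ → AddSubgroup G)
    (T : ℕ → Set G), K 0 = ⊤ → K n = ⊥ →
    (∀ i < n, ∀ g ∈ K i, ∃ t ∈ T i, g - t ∈ K (i + 1)) →
    ∀ B : Fin k → Finset G, (∀ j, (B j).Nonempty) →
      ∃ I ⊆ range n, ∏ j, ((B j).card : ℝ) ≤ κ ^ I.card * (Nat.card G : ℝ) ^ k ∧ MCov T B I := by
  have hk := two_le_k h0 h1 hκ
  induction n with
  | zero =>
    intro G _ _ K T hK0 hKn _ B hB
    have : Fintype G := Fintype.ofFinite G
    refine ⟨∅, empty_subset _, ?_, ?_⟩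
    · rw [card_empty, pow_zero, one_mul]
      have hc : ∀ j, ((B j).card : ℝ) ≤ Nat.card G := by
        intro j
        rw [Nat.card_eq_fintype_card]
        exact_mod_cast card_le_univ (B j)
      calc ∏ j, ((B j).card : ℝ) ≤ ∏ _j : Fin k, (Nat.card G : ℝ) :=
            prod_le_prod (fun j _ => by positivity) (fun j _ => hc j)
        _ = (Nat.card G : ℝ) ^ k := by rw [prod_const, card_univ, Fintype.card_fin]
    · intro x
      have hsub : ∀ g : G, g = 0 := by
        intro g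
        have h1 : g ∈ K 0 := by rw [hK0]; exact AddSubgroup.mem_top g
        rw [hKn] at h1
        exact AddSubgroup.mem_bot.mp h1
      choose b hb using hB
      exact ⟨b, hb, fun _ => 0, fun i hi => absurd hi (notMem_empty i),
        by rw [hsub x, hsub (∑ j, b j + _)]⟩
  | succ n ih =>
    intro G _ _ K T hK0 hKn hT B hB
    have : Fintype G := Fintype.ofFinite G
    set L := K n with hLd
    set q := Nat.card L with hqd
    have hqn : 0 < q := Nat.card_pos
    have hQR : (0 : ℝ) < q := by exact_mod_cast hqn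
    have hGc : (Nat.card G : ℝ) = Nat.card (G ⧸ L) * q := by
      rw [hqd]
      exact_mod_cast AddSubgroup.card_eq_card_quotient_mul_card_addSubgroup L
    let T' : ℕ → Set (G ⧸ L) := fun i => QuotientAddGroup.mk' L '' T i
    have hTT : ∀ i, ∀ t' ∈ T' i, ∃ t ∈ T i, (QuotientAddGroup.mk t : G ⧸ L) = t' := by
      rintro i _ ⟨t, ht, rfl⟩
      exact ⟨t, ht, rfl⟩
    have hLT : ∀ g ∈ L, g ∈ T n := by
      intro g hg
      obtain ⟨t, ht, h1⟩ := hT n (by omega) g hg
      rw [hKn, AddSubgroup.mem_bot, sub_eq_zero] at h1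
      rwa [h1]
    have ih' := ih (G ⧸ L) (fun i => (K i).map (QuotientAddGroup.mk' L)) T' (by
      rw [hK0]
      exact AddSubgroup.map_top_of_surjective _ (QuotientAddGroup.mk'_surjective L)) (by
      rw [← hLd, AddSubgroup.map_eq_bot_iff, QuotientAddGroup.ker_mk']) (by
      rintro i hi _ ⟨g, hg, rfl⟩
      obtain ⟨t, ht, h1⟩ := hT i (by omega) g hg
      exact ⟨_, ⟨t, ht, rfl⟩, ⟨_, h1, map_sub _ _ _⟩⟩)
    have hpos : ∀ j, (0 : ℝ) < (B j).card := fun j => by
      exact_mod_cast card_pos.mpr (hB j)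
    have hlpos : ∀ j, (0 : ℝ) < (glev L (B j) 1).card := fun j => by
      exact_mod_cast card_pos.mpr (glev_one_nonempty (hB j))
    have hBpos : (0 : ℝ) < ∏ j, ((B j).card : ℝ) := prod_pos fun j _ => hpos j
    have hWpos : (0 : ℝ) < ∏ j, ((glev L (B j) 1).card : ℝ) := prod_pos fun j _ => hlpos j
    by_cases hA : ∃ j0 j1 : Fin k, j0 ≠ j1 ∧ ∃ s ∈ Icc 1 q, ∏ j, ((B j).card : ℝ) ≤
        q ^ k * ∏ j, ((glev L (B j) (lvl q j0 j1 s j)).card : ℝ)
    · obtain ⟨j0, j1, hj, s, hs, hle⟩ := hA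
      have hne : ∀ j, (glev L (B j) (lvl q j0 j1 s j)).Nonempty := by
        intro j
        rw [← card_pos]
        by_contra hcon
        have h3 : (glev L (B j) (lvl q j0 j1 s j)).card = 0 := by omega
        have h4 : ∏ j, ((glev L (B j) (lvl q j0 j1 s j)).card : ℝ) = 0 :=
          prod_eq_zero (mem_univ j) (by rw [h3]; norm_num)
        rw [h4, mul_zero] at hle
        linarith
      obtain ⟨I, hI, hcard, hcov⟩ := ih' (fun j => glev L (B j) (lvl q j0 j1 s j)) hne
      refine ⟨I, hI.trans (range_subset_range.mpr (by omega)), ?_,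
        moptA hj hs (fun i _ => hTT i) hcov⟩
      rw [hGc]
      calc ∏ j, ((B j).card : ℝ)
          ≤ q ^ k * ∏ j, ((glev L (B j) (lvl q j0 j1 s j)).card : ℝ) := hle
        _ ≤ q ^ k * (κ ^ I.card * (Nat.card (G ⧸ L) : ℝ) ^ k) := by gcongr
        _ = κ ^ I.card * ((Nat.card (G ⧸ L) : ℝ) * q) ^ k := by rw [mul_pow]; ring
    push Not at hA
    set W : ℝ := ∏ j, ((glev L (B j) 1).card : ℝ) with hW
    set P : ℝ := (∏ j, ((B j).card : ℝ)) / (q ^ k * W) with hP
    have hQW : (0 : ℝ) < q ^ k * W := mul_pos (pow_pos hQR k) hWpos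
    have hPe : P * (q ^ k * W) = ∏ j, ((B j).card : ℝ) := div_mul_cancel₀ _ hQW.ne'
    set r : Fin k → ℝ := fun j => ((B j).card : ℝ) / (q * (glev L (B j) 1).card) with hr
    have hrpos : ∀ j, 0 < r j := fun j => div_pos (hpos j) (mul_pos hQR (hlpos j))
    have hPr : P = ∏ j, r j := by
      simp only [hP, hr, prod_div_distrib, prod_mul_distrib, prod_const, card_univ,
        Fintype.card_fin, hW]
    have hPpos : 0 < P := by rw [hPr]; exact prod_pos fun j _ => hrpos j
    have hP1 : P ≤ 1 := by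
      rw [hPr]
      exact prod_le_one (fun j _ => (hrpos j).le) (fun j _ => gle_one (hB j))
    have hpair : ∀ j0 j1 : Fin k, j0 ≠ j1 → r j0 + r j1 < 1 + P := by
      intro j0 j1 hj
      refine gpair_ineq (hB j0) (hB j1) ?_
      intro s hs
      have h5 := hA j0 j1 hj s hs
      rw [prod_two hj (fun j => ((glev L (B j) (lvl q j0 j1 s j)).card : ℝ))] at h5
      have e0 : lvl q j0 j1 s j0 = s := by
        unfold lvl
        rw [if_pos rfl]
      have e1 : lvl q j0 j1 s j1 = q + 1 - s := by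
        unfold lvl
        rw [if_neg hj.symm, if_pos rfl]
      have e2 : ∏ j ∈ (univ.erase j0).erase j1, ((glev L (B j) (lvl q j0 j1 s j)).card : ℝ) =
          ∏ j ∈ (univ.erase j0).erase j1, ((glev L (B j) 1).card : ℝ) := by
        refine prod_congr rfl fun j hj' => ?_
        rw [mem_erase, mem_erase] at hj'
        have e3 : lvl q j0 j1 s j = 1 := by
          unfold lvl
          rw [if_neg hj'.2.1, if_neg hj'.1]
        rw [e3]
      rw [e0, e1, e2] at h5
      have hR : (0 : ℝ) < ∏ j ∈ (univ.erase j0).erase j1, ((glev L (B j) 1).card : ℝ) :=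
        prod_pos fun j _ => hlpos j
      set R : ℝ := ∏ j ∈ (univ.erase j0).erase j1, ((glev L (B j) 1).card : ℝ) with hRd
      have hWe : W = (glev L (B j0) 1).card * (glev L (B j1) 1).card * R := by
        rw [hW, prod_two hj]
      rw [← hPe, hWe] at h5
      have hqk : (0 : ℝ) < q ^ k := pow_pos hQR k
      have h6 : (q : ℝ) ^ k * R * (((glev L (B j0) s).card : ℝ) *
          (glev L (B j1) (q + 1 - s)).card) < q ^ k * R * (P *
            ((glev L (B j0) 1).card * (glev L (B j1) 1).card)) := by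
        calc (q : ℝ) ^ k * R * (((glev L (B j0) s).card : ℝ) *
          (glev L (B j1) (q + 1 - s)).card) = q ^ k * (((glev L (B j0) s).card : ℝ) *
            ((glev L (B j1) (q + 1 - s)).card : ℝ) * R) := by ring
          _ < P * (q ^ k * ((glev L (B j0) 1).card * (glev L (B j1) 1).card * R)) := h5
          _ = _ := by ring
      exact lt_of_mul_lt_mul_left h6 (mul_pos hqk hR).le
    have hlt : P < ((1 + P) / 2) ^ k := by
      rw [hPr] at hpair ⊢
      exact cyc hk r hrpos hpair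
    have hfin : P ≤ κ := kappa_bound h0 h1 hκ hP1 hlt
    obtain ⟨I, hI, hcard, hcov⟩ := ih' (fun j => glev L (B j) 1)
      (fun j => glev_one_nonempty (hB j))
    refine ⟨insert n I, ?_, ?_, moptB hI hLT (fun i _ => hTT i) hcov⟩
    · intro i hi
      rw [mem_insert] at hi
      rcases hi with rfl | hi
      · exact mem_range.mpr (by omega)
      · have := mem_range.mp (hI hi)
        exact mem_range.mpr (by omega)
    · have hnI : n ∉ I := fun h' => by
        have := mem_range.mp (hI h')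
        omega
      rw [card_insert_of_notMem hnI, hGc, pow_succ]
      rw [← hPe]
      calc P * (q ^ k * W) ≤ κ * (q ^ k * (κ ^ I.card * (Nat.card (G ⧸ L) : ℝ) ^ k)) := by
            exact mul_le_mul hfin (mul_le_mul_of_nonneg_left hcard (pow_pos hQR k).le)
              hQW.le h0.le
        _ = κ ^ I.card * κ * ((Nat.card (G ⧸ L) : ℝ) * q) ^ k := by rw [mul_pow]; ring

end Pool.Agent.H91.CG
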